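import Pool.Agent.Helper37.SN.Stmts

/-! Module BLK of sn_mods: counting with blocks. -/

namespace Pool.Agent.Helper37.SN

open MeasureTheory Finset
open scoped ENNReal Classical

theorem st_BLK : ST_BLK := by
  intro A n u v hu hA hv
  have hmaps : ∀ s ∈ A, s.toNat / u ∈ Finset.range ((n + 1) / u + 1) := by
    intro s hs
    rw [Finset.mem_range]
    have h1 : s.toNat ≤ n + 1 := by
      have := hA s hs
      omega
    exact Nat.lt_succ_of_le (Nat.div_le_div_right h1)
  have hfib : ∀ b ∈ Finset.range ((n + 1) / u + 1),
      (A.filter (fun s : ℤ => s.toNat / u = b)).card ≤ v := by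
    intro b _
    by_cases hne : (A.filter (fun s : ℤ => s.toNat / u = b)).Nonempty
    · set F := A.filter (fun s : ℤ => s.toNat / u = b) with hF
      have hm := Finset.min'_mem F hne
      set s := F.min' hne with hs
      have hsA : s ∈ A := (Finset.mem_filter.mp hm).1
      have hsb : s.toNat / u = b := (Finset.mem_filter.mp hm).2
      refine le_trans (Finset.card_le_card ?_) (hv s hsA)
      intro t ht
      have htA : t ∈ A := (Finset.mem_filter.mp ht).1
      have htb : t.toNat / u = b := (Finset.mem_filter.mp ht).2
      rw [Finset.mem_filter]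
      refine ⟨htA, Finset.min'_le F t ht, ?_⟩
      have h1 := Nat.lt_div_mul_add (a := t.toNat) (show 0 < u by omega)
      have h2 := Nat.div_mul_le_self s.toNat u
      rw [htb] at h1
      rw [hsb] at h2
      have h3 := hA s hsA
      have h4 := hA t htA
      have h5 : t.toNat < s.toNat + u := by omega
      omega
    · rw [Finset.not_nonempty_iff_eq_empty] at hne
      rw [hne]
      simp
  have := Finset.card_le_mul_card_image_of_maps_to hmaps v hfib
  simpa using this

end Pool.Agent.Helper37.SN
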