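import Pool.Agent.Helper37.SN.Stmts

/-! Module MLT of sn_mods: double counting with windows. -/

namespace Pool.Agent.Helper37.SN

open MeasureTheory Finset
open scoped ENNReal Classical

theorem st_MLT : ST_MLT := by
  intro A E W t h
  have h1 : t * E.card ≤ ∑ s ∈ E, (A.filter (fun x => |x - s| ≤ W)).card := by
    rw [mul_comm]
    have := Finset.card_nsmul_le_sum E (fun s => (A.filter (fun x => |x - s| ≤ W)).card) t h
    simpa using this
  have h2 : ∑ s ∈ E, (A.filter (fun x => |x - s| ≤ W)).card =
      ∑ x ∈ A, (E.filter (fun s => |x - s| ≤ W)).card := by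
    simp_rw [Finset.card_filter]
    exact Finset.sum_comm
  have h3 : ∑ x ∈ A, (E.filter (fun s => |x - s| ≤ W)).card ≤ ∑ _x ∈ A, (2 * W + 1) := by
    refine Finset.sum_le_sum fun x _ => ?_
    have hsub : E.filter (fun s => |x - s| ≤ (W : ℤ)) ⊆ Finset.Icc (x - W) (x + W) := by
      intro s hs
      have := (Finset.mem_filter.mp hs).2
      rw [abs_le] at this
      rw [Finset.mem_Icc]
      omega
    refine le_trans (Finset.card_le_card hsub) ?_
    rw [Int.card_Icc]
    omega
  rw [h2] at h1
  refine le_trans h1 (le_trans h3 ?_)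
  rw [Finset.sum_const, smul_eq_mul, mul_comm]

end Pool.Agent.Helper37.SN
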